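import Mathlib
import Pool.Agent.Lib.MP_9a0e7c_co.Config

set_option autoImplicit false

namespace Pool.Agent.Results.MP_9a0e7c_co.NoMonotoneMotion

/-- For every `d ≥ 2` there are two configurations `p`, `q` of the same number of points on the
unit sphere of `ℝ^(d+1)` (the sphere `S^d`), with `q` a contraction of `p`, such that there is no
continuous motion on the unit sphere of `ℝ^(2d+1)` (the sphere `S^(2d)`), starting at any
congruent copy of `p` and ending at any congruent copy of `q`, along which every pairwise distance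
is a monotone function of time (in a direction that may depend on the pair). -/
theorem result (d : ℕ) (hd : 2 ≤ d) :
    ∃ (N : ℕ) (p q : Fin N → EuclideanSpace ℝ (Fin (d + 1))),
      (∀ i, ‖p i‖ = 1) ∧ (∀ i, ‖q i‖ = 1) ∧
      (∀ i j, dist (q i) (q j) ≤ dist (p i) (p j)) ∧
      ¬ ∃ m : ℝ → Fin N → EuclideanSpace ℝ (Fin (2 * d + 1)),
        ContinuousOn m (Set.Icc 0 1) ∧
        (∀ t ∈ Set.Icc (0:ℝ) 1, ∀ i, ‖m t i‖ = 1) ∧
        (∀ i j, dist (m 0 i) (m 0 j) = dist (p i) (p j)) ∧
        (∀ i j, dist (m 1 i) (m 1 j) = dist (q i) (q j)) ∧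
        ∀ i j, MonotoneOn (fun t => dist (m t i) (m t j)) (Set.Icc 0 1) ∨
               AntitoneOn (fun t => dist (m t i) (m t j)) (Set.Icc 0 1) := by
  let e := (Fintype.equivFin (Lib.MP_9a0e7c_co.Idx d)).symm
  refine ⟨_, fun i => Lib.MP_9a0e7c_co.P d (e i), fun i => Lib.MP_9a0e7c_co.Q d (e i),
    fun i => Lib.MP_9a0e7c_co.norm_P d _, fun i => Lib.MP_9a0e7c_co.norm_Q d _,
    fun i j => Lib.MP_9a0e7c_co.dist_Q_le_P d _ _, ?_⟩
  rintro ⟨m, hc, hn, h0, h1, hmono⟩
  have key := Lib.MP_9a0e7c_co.finrank_ge (d := d) hd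
    (fun t i => m t (e.symm i)) (fun t ht i => hn t ht _)
    (fun i => (continuous_apply (e.symm i)).comp_continuousOn hc)
    (fun i j => by simp only [h0, Equiv.apply_symm_apply])
    (fun i j => by simp only [h1, Equiv.apply_symm_apply])
    (fun i j => hmono _ _)
  simp at key
  omega

end Pool.Agent.Results.MP_9a0e7c_co.NoMonotoneMotion
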